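import Pool.Agent.helper62.W3.SpecA
import Pool.Agent.helper92.GD.BV4
import Pool.Agent.helper20.GD.BV1

/-! # we:KKS -/

set_option autoImplicit false

namespace Pool.Agent.EC

open Finset ArithmeticFunction
open Pool.Agent.CH (Win rgh dl eU Mo ClP ClB)
open GD (kp ks)

private theorem KKS_ks (R M a j : ℕ) (hM : 0 < M) :
    |ks R M a j| ≤ (R : ℝ) ^ 2 / (Nat.totient M : ℝ) := by
  classical
  have hφ0 : (0 : ℝ) ≤ 1 / (Nat.totient M : ℝ) := by positivity
  have he : (R : ℝ) ^ 2 / (Nat.totient M : ℝ) = 1 / (Nat.totient M : ℝ) * (R : ℝ) ^ 2 := by ring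
  unfold ks
  rw [abs_mul, abs_of_nonneg hφ0, he]
  refine mul_le_mul_of_nonneg_left ?_ hφ0
  refine (Complex.abs_re_le_norm _).trans ((norm_sum_le _ _).trans ?_)
  calc ∑ χ ∈ (univ : Finset (DirichletCharacter ℂ M)).filter (fun χ => χ.conductor ≤ R),
        ‖(starRingEnd ℂ) (χ a) * χ j‖
      ≤ ∑ χ ∈ (univ : Finset (DirichletCharacter ℂ M)).filter (fun χ => χ.conductor ≤ R),
        (1 : ℝ) := by
        apply sum_le_sum
        intro χ _
        rw [norm_mul, RCLike.norm_conj]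
        have h1 := DirichletCharacter.norm_le_one χ (a : ZMod M)
        have h2 := DirichletCharacter.norm_le_one χ (j : ZMod M)
        exact (mul_le_mul h1 h2 (norm_nonneg _) zero_le_one).trans (le_of_eq (one_mul 1))
    _ = (#((univ : Finset (DirichletCharacter ℂ M)).filter (fun χ => χ.conductor ≤ R)) : ℝ) := by
        rw [sum_const, nsmul_eq_mul, mul_one]
    _ ≤ ((R * R : ℕ) : ℝ) := by exact_mod_cast GD.BV4_card M R hM
    _ = (R : ℝ) ^ 2 := by push_cast; ring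

private theorem KKS_sum (Q : ℝ) (hQ : 1 ≤ Q) (R j : ℕ) (r : ℕ → ℕ) (g : ℕ)
    (hg : ∀ m ∈ Mo Q, j ≡ r m [MOD 30 * m] → m ∣ g) :
    ∑ m ∈ Mo Q, |KK R (30 * m) (r m) j| ≤
      (#((Mo Q).filter fun m => m ∣ g) : ℝ) +
        Real.exp 30 * (R : ℝ) ^ 2 * (1 + Real.log Q) := by
  classical
  have hone : ∀ m ∈ Mo Q, |KK R (30 * m) (r m) j| ≤
      (if m ∣ g then (1 : ℝ) else 0) + (R : ℝ) ^ 2 * (1 / (Nat.totient m : ℝ)) := by
    intro m hm
    have hm' := hm
    unfold Mo at hm'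
    rw [Finset.mem_filter, Finset.mem_Icc] at hm'
    obtain ⟨⟨hm1, _⟩, _⟩ := hm'
    have hφ : (0 : ℝ) < (Nat.totient m : ℝ) := by
      exact_mod_cast Nat.totient_pos.2 hm1
    have hφ2 : (Nat.totient m : ℝ) ≤ (Nat.totient (30 * m) : ℝ) := by
      have := Nat.le_of_dvd (Nat.totient_pos.2 (by omega))
        (Nat.totient_dvd_of_dvd (Dvd.intro_left 30 rfl : m ∣ 30 * m))
      exact_mod_cast this
    unfold KK
    refine (abs_sub _ _).trans (add_le_add ?_ ?_)
    · by_cases h : j ≡ r m [MOD 30 * m]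
      · rw [if_pos h, if_pos (hg m hm h), abs_one]
      · rw [if_neg h, abs_zero]
        split_ifs <;> norm_num
    · refine (KKS_ks R (30 * m) (r m) j (by omega)).trans ?_
      rw [div_eq_mul_one_div]
      exact mul_le_mul_of_nonneg_left (one_div_le_one_div_of_le hφ hφ2) (by positivity)
  refine (sum_le_sum hone).trans ?_
  rw [sum_add_distrib, ← mul_sum]
  refine add_le_add ?_ ?_
  · rw [← sum_filter, sum_const, nsmul_eq_mul, mul_one]
  · obtain ⟨n, hn⟩ : ∃ n : ℕ, n = ⌊Q⌋₊ := ⟨_, rfl⟩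
    have hn1 : 1 ≤ n := by
      rw [hn, Nat.one_le_floor_iff]
      exact hQ
    have h1 : ∑ m ∈ Mo Q, 1 / (Nat.totient m : ℝ) ≤ ∑ m ∈ Icc 1 n, 1 / (Nat.totient m : ℝ) := by
      unfold Mo
      rw [← hn]
      exact sum_le_sum_of_subset_of_nonneg (filter_subset _ _) (fun _ _ _ => by positivity)
    have h2 : Real.log n ≤ Real.log Q := by
      apply Real.log_le_log
      · exact_mod_cast hn1
      · rw [hn]
        exact Nat.floor_le (by linarith)
    have h3 : ∑ m ∈ Mo Q, 1 / (Nat.totient m : ℝ) ≤ Real.exp 30 * (1 + Real.log Q) := by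
      refine h1.trans ((GD.BV1_sum_inv n hn1).trans ?_)
      exact mul_le_mul_of_nonneg_left (by linarith) (Real.exp_pos _).le
    calc (R : ℝ) ^ 2 * ∑ m ∈ Mo Q, 1 / (Nat.totient m : ℝ)
        ≤ (R : ℝ) ^ 2 * (Real.exp 30 * (1 + Real.log Q)) :=
          mul_le_mul_of_nonneg_left h3 (by positivity)
      _ = Real.exp 30 * (R : ℝ) ^ 2 * (1 + Real.log Q) := by ring

/-- **KKS** -/
theorem KKS : KKS_stmt := by
  refine ⟨Real.exp 30, Real.exp_pos _, fun R M a j hM => KKS_ks R M a j hM, ?_⟩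
  intro Q R j r hQ _
  refine ⟨fun hr => ?_, fun hr hj => ?_⟩
  · refine KKS_sum Q hQ R j r (j + 6) ?_
    intro m hm h
    unfold Mo at hm
    rw [Finset.mem_filter, Finset.mem_Icc] at hm
    obtain ⟨⟨hm1, _⟩, hmc⟩ := hm
    have h1 := (hr m hm1 hmc).2
    have h2 : j ≡ r m [MOD m] := h.of_mul_left 30
    have h3 : j + 6 ≡ r m + 6 [MOD m] := h2.add_right 6
    exact (Nat.ModEq.dvd_iff h3 dvd_rfl).2 h1
  · refine KKS_sum Q hQ R j r (j - 6) ?_
    intro m hm h
    unfold Mo at hm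
    rw [Finset.mem_filter, Finset.mem_Icc] at hm
    obtain ⟨⟨hm1, _⟩, hmc⟩ := hm
    have h1 := (hr m hm1 hmc).2
    have h2 : j ≡ r m [MOD m] := h.of_mul_left 30
    have h3 : 6 ≡ j [MOD m] := (h2.trans h1).symm
    exact (Nat.modEq_iff_dvd' (by omega)).1 h3

end Pool.Agent.EC
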